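import Pool.Agent.H67.AG.T1

/-!
`T_LV` of the absolute gap board (`MP_c59857_nt`): the rational sets are nearly invariant under
highly divisible powers (Levy's upward theorem for the filtration of the sets which are invariant
under `T ^ (n !)`).
-/

set_option autoImplicit false

open MeasureTheory ProbabilityTheory Filter Topology Finset
open scoped Nat ENNReal

namespace Pool.Agent.H67.AG

theorem LV_inv_mono {Ω : Type} [MeasurableSpace Ω] (T : Ω ≃ᵐ Ω) {a b : ℕ} (h : a ∣ b) :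
    Inv T a ≤ Inv T b := by
  obtain ⟨c, rfl⟩ := h
  change MeasurableSpace.invariants (T^[a]) ≤ MeasurableSpace.invariants (T^[a * c])
  rw [Function.iterate_mul]
  exact MeasurableSpace.le_invariants_iterate _ c

theorem LV_rt_le {Ω : Type} [mΩ : MeasurableSpace Ω] (T : Ω ≃ᵐ Ω) : Rt T ≤ mΩ :=
  iSup_le fun _ => MeasurableSpace.invariants_le _

theorem LV_inv_le_rt {Ω : Type} [MeasurableSpace Ω] (T : Ω ≃ᵐ Ω) {W : ℕ} (hW : 0 < W) :
    Inv T W ≤ Rt T :=
  (LV_inv_mono T (Nat.dvd_factorial hW le_rfl)).trans (le_iSup (fun w : ℕ => Inv T (w !)) W)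

/-- the filtration of the sets which are invariant under `T ^ (n !)` -/
noncomputable def LVfil {Ω : Type} [mΩ : MeasurableSpace Ω] (T : Ω ≃ᵐ Ω) : Filtration ℕ mΩ where
  seq n := Inv T (n !)
  mono' := fun _ _ h => LV_inv_mono T (Nat.factorial_dvd_factorial h)
  le' := fun _ => MeasurableSpace.invariants_le _

theorem pf_LV : T_LV := by
  intro Ω mΩ P hP T f ε hf hC hε
  obtain ⟨C, hC⟩ := hC
  have hrt : Rt T ≤ mΩ := LV_rt_le T
  have hfi : Integrable f P :=
    Integrable.of_bound hf.aestronglyMeasurable C (ae_of_all _ fun ω => by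
      rw [Real.norm_eq_abs]; exact hC ω)
  set h : Ω → ℝ := P[f | Rt T] with hh
  have hhi : Integrable h P := integrable_condExp
  have hlev : Tendsto (fun n => eLpNorm (P[h | LVfil T n] - h) 1 P) atTop (𝓝 0) := by
    refine Integrable.tendsto_eLpNorm_condExp (ℱ := LVfil T) hhi ?_
    exact stronglyMeasurable_condExp
  have hev : ∀ᶠ n in atTop, eLpNorm (P[h | LVfil T n] - h) 1 P ≤ ENNReal.ofReal (ε / 2) := by
    have h0 : (0 : ℝ≥0∞) < ENNReal.ofReal (ε / 2) := by
      rw [ENNReal.ofReal_pos]; linarith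
    filter_upwards [hlev.eventually (gt_mem_nhds h0)] with n hn using hn.le
  obtain ⟨w₀, hw₀⟩ := hev.exists
  refine ⟨w₀, fun W hW hdvd => ?_⟩
  set g : Ω → ℝ := P[h | LVfil T w₀] with hg
  have hgi : Integrable g P := integrable_condExp
  have hdist : ∫ ω, |h ω - g ω| ∂P ≤ ε / 2 := by
    have h1 : ∫ ω, |h ω - g ω| ∂P = (eLpNorm (g - h) 1 P).toReal := by
      rw [eLpNorm_one_eq_lintegral_enorm, ← integral_norm_eq_lintegral_enorm
        (hgi.sub hhi).aestronglyMeasurable]
      refine integral_congr_ae (ae_of_all _ fun ω => ?_)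
      simp only [Pi.sub_apply, Real.norm_eq_abs]
      exact abs_sub_comm _ _
    rw [h1]
    refine ENNReal.toReal_le_of_le_ofReal (by linarith) hw₀
  have hFW : Inv T (w₀ !) ≤ Inv T W := LV_inv_mono T hdvd
  have hWR : Inv T W ≤ Rt T := LV_inv_le_rt T hW
  have hWm : Inv T W ≤ mΩ := MeasurableSpace.invariants_le _
  have h2 : P[f | Inv T W] =ᵐ[P] P[h | Inv T W] := (condExp_condExp_of_le hWR hrt).symm
  have h3 : P[g | Inv T W] = g := by
    refine condExp_of_stronglyMeasurable hWm ?_ hgi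
    exact (stronglyMeasurable_condExp (m := Inv T (w₀ !)) (f := h) (μ := P)).mono hFW
  have h4 : P[h - g | Inv T W] =ᵐ[P] P[h | Inv T W] - P[g | Inv T W] :=
    condExp_sub hhi hgi _
  have h5 : ∫ ω, |(P[h - g | Inv T W]) ω| ∂P ≤ ∫ ω, |(h - g) ω| ∂P := integral_abs_condExp_le _
  have h6 : ∀ᵐ ω ∂P, |h ω - (P[f | Inv T W]) ω| ≤ |(h - g) ω| + |(P[h - g | Inv T W]) ω| := by
    filter_upwards [h2, h4] with ω e2 e4
    rw [e2]
    have e5 : (P[h | Inv T W]) ω = g ω + (P[h - g | Inv T W]) ω := by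
      rw [e4, Pi.sub_apply, h3]; ring
    rw [e5, Pi.sub_apply]
    calc |h ω - (g ω + (P[h - g | Inv T W]) ω)|
        = |(h ω - g ω) - (P[h - g | Inv T W]) ω| := by ring_nf
      _ ≤ _ := abs_sub _ _
  calc ∫ ω, |h ω - (P[f | Inv T W]) ω| ∂P
      ≤ ∫ ω, (|(h - g) ω| + |(P[h - g | Inv T W]) ω|) ∂P := by
        refine integral_mono_ae ?_ ?_ h6
        · exact (hhi.sub integrable_condExp).abs
        · exact (hhi.sub hgi).abs.add integrable_condExp.abs
    _ = ∫ ω, |(h - g) ω| ∂P + ∫ ω, |(P[h - g | Inv T W]) ω| ∂P :=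
        integral_add (hhi.sub hgi).abs integrable_condExp.abs
    _ ≤ ε / 2 + ε / 2 := by
        have h7 : ∫ ω, |(h - g) ω| ∂P ≤ ε / 2 := hdist
        linarith
    _ = ε := by ring

end Pool.Agent.H67.AG
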